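import Pool.Agent.Q297.Ontology

/-!
# Ishimoto's propositional ontology `L₁` embeds in Grzegorczyk's logic
-/

namespace Pool.Agent.Results.MP_36ff06_lc.EmbedsInGrz

open Pool.Agent.Q297.Ontology

/-- Grzegorczyk's axiom `□(□(p → □p) → p) → p`. -/
def grzAxiom : MForm :=
  .imp (.box (.imp (.box (.imp (.var 0) (.box (.var 0)))) (.var 0))) (.var 0)

/-- The logic `Grz`: the smallest normal modal logic containing Grzegorczyk's axiom. -/
def Grz : MForm → Prop := Normal {grzAxiom}

theorem grz_valid (V : ℕ → Fan → Prop) (w : Fan) : Sat Fan.le V grzAxiom w := by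
  unfold grzAxiom
  rw [sat_imp]
  intro H
  have H' : ∀ u, Fan.le w u →
      (∀ x, Fan.le u x → V 0 x → ∀ y, Fan.le x y → V 0 y) → V 0 u := by
    intro u hu h
    exact sat_imp.mp (H u hu) (fun x hx => sat_imp.mpr (h x hx))
  have htop : V 0 .top := by
    refine H' .top (Fan.le_top w) ?_
    intro x hx hV y hy
    cases x <;> simp only [Fan.le] at hx
    cases y <;> simp only [Fan.le] at hy
    exact hV
  have hpt : ∀ d, Fan.le w (.pt d) → V 0 (.pt d) := by
    intro d hd
    refine H' (.pt d) hd ?_
    intro x hx hV y hy
    cases x with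
    | root => exact hx.elim
    | pt d' =>
      cases y with
      | root => exact hy.elim
      | pt d'' =>
        have : d' = d'' := hy
        subst this
        exact hV
      | top => exact htop
    | top =>
      cases y <;> simp only [Fan.le] at hy
      exact hV
  change V 0 w
  cases w with
  | root =>
    refine H' .root trivial ?_
    intro x _ hV y _
    cases y with
    | root =>
      cases x with
      | root => exact hV
      | pt _ => rename_i h; exact h.elim
      | top => rename_i h; exact h.elim
    | pt d => exact hpt d trivial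
    | top => exact htop
  | pt d => exact hpt d rfl
  | top => exact htop

/-- **Positive answer to Q1 of MP_36ff06_lc.**  There is a modal formula `F(x, y)` in two
variables such that the translation `t_F` embeds `L₁` in `Grz`; here
`F(x, y) = x ∧ ((y ∧ □(x ↔ y)) ∨ (¬ y ∧ ◇(x ∧ y)))`. -/
theorem result : ∃ F : MForm, F.vars ⊆ {0, 1} ∧ Embeds F Grz := by
  refine ⟨theF, vars_theF, embeds ?_⟩
  rintro φ hφ V w
  rw [Set.mem_singleton_iff.mp hφ]
  exact grz_valid V w

end Pool.Agent.Results.MP_36ff06_lc.EmbedsInGrz
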